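import Pool.Agent.Helper6.GP.Goals
import Pool.Agent.Helper15.An.Good

/-! # Packet GP-RATIO (helper6, MP_75608d_al): character bound for elements moving many points -/

set_option linter.unusedSectionVars false

namespace Pool.Agent.Helper38.GP

open Matrix Module Equiv Filter Topology Pool.Agent.Helper15.An
open Pool.Agent.Helper17.RelDim (fixS finrank_fixS_le)

section gen

variable {n : ℕ} {V : Type} [NormedAddCommGroup V] [InnerProductSpace ℂ V] [FiniteDimensional ℂ V]

/-- dimension bound for the vectors fixed by the alternating group of `C` -/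
theorem finrank_altfix_gen (ρ : Perm (Fin n) →* (V →ₗ[ℂ] V))
    (hu : ∀ σ v w, inner ℂ (ρ σ v) (ρ σ w) = inner ℂ v w) (r lam : ℕ)
    (hno : ∀ v : V, (∀ σ : Perm (Fin n), Perm.sign σ = 1 →
      (∀ j : Fin n, j.val < r → σ j = j) → ρ σ v = v) → v = 0)
    (hlam : r + 1 ≤ lam) (C : Finset (Fin n)) (hC : 2 * lam + 1 < C.card) :
    (finrank ℂ (altfix ρ C) : ℝ) ≤
      2 * (1 - ((C.card : ℝ) - 2 * lam - 1) / ((n : ℝ) - 2 * lam - 1)) ^ (r + 1) *
        finrank ℂ V := by
  have h1 := finrank_fixS_le ρ hu r lam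
    (fun C' hC' => by
      rw [eq_bot_iff, ← altfix_eq_bot ρ r hno C' hC']
      exact fixS_le_altfix ρ C') hlam C hC
  have h2 := finrank_fixS_le (tw ρ) (tw_unitary hu) r lam
    (fun C' hC' => by
      rw [eq_bot_iff, ← altfix_eq_bot ρ r hno C' hC']
      exact fixS_tw_le_altfix ρ C') hlam C hC
  have h6 : finrank ℂ (altfix ρ C) ≤ finrank ℂ (fixS ρ C) + finrank ℂ (fixS (tw ρ) C) :=
    (Submodule.finrank_mono (altfix_le ρ C (by omega))).trans
      (Submodule.finrank_add_le_finrank_add_finrank _ _)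
  have h7 : (finrank ℂ (altfix ρ C) : ℝ) ≤ finrank ℂ (fixS ρ C) + finrank ℂ (fixS (tw ρ) C) := by
    exact_mod_cast h6
  linarith

/-- The character bound, general form with `J = 2`. -/
theorem char_bound_gen (ρ : Perm (Fin n) →* (V →ₗ[ℂ] V))
    (hu : ∀ σ v w, inner ℂ (ρ σ v) (ρ σ w) = inner ℂ v w)
    (g : Perm (Fin n)) (T : Finset (Fin n)) (hT : ∀ x ∈ T, g x ∉ T) (hTc : 29 ≤ T.card)
    (b : ℝ) (hb0 : 0 ≤ b)
    (hb : ∀ C ⊆ T, C.card + 24 = T.card → (finrank ℂ (altfix ρ C) : ℝ) ≤ b * finrank ℂ V)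
    (hb1 : (n : ℝ) ^ 24 * b ≤ 1 / 4) :
    ‖LinearMap.trace ℂ V (ρ g)‖ ≤ finrank ℂ V / 2 := by
  classical
  set s := 24 with hs
  set U : Submodule ℂ V := (T.powersetCard s).sup (fun R => altfix ρ (T \ R)) with hU
  have hTR : ∀ R ∈ T.powersetCard s, (T \ R).card + s = T.card := by
    intro R hR
    rw [Finset.mem_powersetCard] at hR
    rw [Finset.card_sdiff_of_subset hR.1, hR.2]
    have := Finset.card_le_card hR.1
    omega
  -- dimension of U
  have hUdim : (finrank ℂ U : ℝ) ≤ finrank ℂ V / 4 := by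
    have h1 := finrank_sup_le (T.powersetCard s) (fun R => altfix ρ (T \ R))
      (b * finrank ℂ V) (fun R hR => hb _ Finset.sdiff_subset (hTR R hR))
    refine h1.trans ?_
    have h2 : ((T.powersetCard s).card : ℝ) ≤ (n : ℝ) ^ s := by
      rw [Finset.card_powersetCard]
      have h3 : T.card.choose s ≤ T.card ^ s := Nat.choose_le_pow T.card s
      have h4 : T.card ≤ n := by simpa using Finset.card_le_univ T
      have h5 : T.card ^ s ≤ n ^ s := Nat.pow_le_pow_left h4 s
      exact_mod_cast h3.trans h5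
    have h8 : (0 : ℝ) ≤ finrank ℂ V := Nat.cast_nonneg _
    have h9 : (0 : ℝ) ≤ b * finrank ℂ V := mul_nonneg hb0 h8
    calc ((T.powersetCard s).card : ℝ) * (b * finrank ℂ V)
        ≤ (n : ℝ) ^ s * (b * finrank ℂ V) := mul_le_mul_of_nonneg_right h2 h9
      _ = ((n : ℝ) ^ s * b) * finrank ℂ V := by ring
      _ ≤ (1 / 4) * finrank ℂ V := mul_le_mul_of_nonneg_right hb1 h8
      _ = finrank ℂ V / 4 := by ring
  -- invariance of U
  have hUT : ∀ σ : Perm (Fin n), Perm.sign σ = 1 → (∀ x, x ∉ T → σ x = x) →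
      ∀ u ∈ U, ρ σ u ∈ U := by
    intro σ _ hσ
    have hle : U ≤ U.comap (ρ σ) := by
      rw [hU]
      refine Finset.sup_le fun R hR => ?_
      intro v hv
      rw [Submodule.mem_comap]
      have hmemT : ∀ x, σ x ∈ T ↔ x ∈ T := by
        intro x
        constructor
        · intro h
          by_contra hx
          rw [hσ x hx] at h
          exact hx h
        · intro h
          by_contra hx
          have h1 := hσ (σ x) hx
          exact hx ((σ.injective h1).symm ▸ h)
      have hR' := Finset.mem_powersetCard.1 hR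
      have hR2 : R.map σ.toEmbedding ∈ T.powersetCard s := by
        rw [Finset.mem_powersetCard, Finset.card_map]
        refine ⟨?_, hR'.2⟩
        intro x hx
        rw [Finset.mem_map] at hx
        obtain ⟨y, hy, rfl⟩ := hx
        exact (hmemT y).2 (hR'.1 hy)
      have h2 : ρ σ v ∈ altfix ρ (T \ R.map σ.toEmbedding) := by
        refine map_altfix ρ σ (T \ R) _ ?_ v hv
        intro x hx
        rw [Finset.mem_sdiff] at hx ⊢
        refine ⟨(hmemT x).1 hx.1, fun h => hx.2 ?_⟩
        rw [Finset.mem_map]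
        exact ⟨x, h, rfl⟩
      exact (Finset.le_sup (f := fun R => altfix ρ (T \ R)) hR2) h2
    exact fun u hu' => hle hu'
  have hUgT : ∀ σ : Perm (Fin n), Perm.sign σ = 1 → (∀ x ∈ T, σ x = x) →
      ∀ u ∈ U, ρ σ u ∈ U := by
    intro σ _ hσ
    have hle : U ≤ U.comap (ρ σ) := by
      rw [hU]
      refine Finset.sup_le fun R hR => ?_
      intro v hv
      rw [Submodule.mem_comap]
      have h2 : ρ σ v ∈ altfix ρ (T \ R) := by
        refine map_altfix ρ σ (T \ R) _ ?_ v hv
        intro x hx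
        have h3 := hσ (σ x) (Finset.mem_sdiff.1 hx).1
        have h4 : σ x = x := σ.injective h3
        rwa [h4] at hx
      exact (Finset.le_sup (f := fun R => altfix ρ (T \ R)) hR) h2
    exact fun u hu' => hle hu'
  have hW : ∀ W : Submodule ℂ V, W ≤ Uᗮ → W ≠ ⊥ →
      (∀ σ : Perm (Fin n), Perm.sign σ = 1 → (∀ x, x ∉ T → σ x = x) →
        ∀ w ∈ W, ρ σ w ∈ W) → (4 : ℝ) ^ 4 ≤ finrank ℂ W := by
    intro W hWU hW0 hWinv
    have h1 := Pool.Agent.Helper4.DimDoubling.dim_doubling ρ 8 T (by omega) W hW0 hWinv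
      (fun C hCT hCc w hw hfix => by
        have hR : T \ C ∈ T.powersetCard s := by
          rw [Finset.mem_powersetCard, Finset.card_sdiff_of_subset hCT]
          exact ⟨Finset.sdiff_subset, by omega⟩
        have h2 : w ∈ altfix ρ (T \ (T \ C)) := by
          rw [Finset.sdiff_sdiff_eq_self hCT]
          exact hfix
        have h3 : w ∈ U := (Finset.le_sup (f := fun R => altfix ρ (T \ R)) hR) h2
        have h4 : w ∈ Uᗮ := hWU hw
        have h5 : w ∈ U ⊓ Uᗮ := ⟨h3, h4⟩
        rw [Submodule.inf_orthogonal_eq_bot] at h5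
        exact (Submodule.mem_bot ℂ).1 h5)
    have h2 : (4 : ℝ) ^ 4 = ((2 ^ 8 : ℕ) : ℝ) := by norm_num
    rw [h2]
    exact_mod_cast h1
  have h1 := Pool.Agent.Helper51.KT.k_trick ρ hu g T hT U hUT hUgT 4 (by norm_num) hW
  refine h1.trans ?_
  linarith

end gen

theorem fixc_add_support {n : ℕ} (g : Perm (Fin n)) : fixc g + g.support.card = n := by
  classical
  unfold fixc
  have h1 : (Finset.univ.filter fun x : Fin n => g x = x) = (g.support)ᶜ := by
    ext x
    simp
  rw [h1, Finset.card_compl, Fintype.card_fin]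
  have := Finset.card_le_univ g.support
  rw [Fintype.card_fin] at this
  omega

/-- the numerical facts -/
theorem nums (e : ℝ) (he : 0 < e) : ∀ᶠ n : ℕ in atTop, 1 ≤ n ∧
    10000 ≤ (n : ℝ) ^ (1 / 2 + e) ∧
    24 * (n : ℝ) ^ 24 ≤ Real.exp ((n : ℝ) ^ (2 * e) / 500) := by
  have h1 : Tendsto (fun n : ℕ => (n : ℝ) ^ (1 / 2 + e)) atTop atTop :=
    (tendsto_rpow_atTop (by linarith)).comp tendsto_natCast_atTop_atTop
  have h2 : Tendsto (fun n : ℕ => (n : ℝ) ^ (2 * e)) atTop atTop :=
    (tendsto_rpow_atTop (by linarith)).comp tendsto_natCast_atTop_atTop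
  have h3 := (isLittleO_rpow_exp_pos_mul_atTop (24 / (2 * e)) (b := 1 / 500)
    (by norm_num)).comp_tendsto h2
  have h4 := h3.bound (c := 1 / 24) (by norm_num)
  filter_upwards [eventually_ge_atTop 1, h1.eventually_ge_atTop 10000, h4] with n hn hn1 hn2
  refine ⟨hn, hn1, ?_⟩
  have hn0 : (0 : ℝ) ≤ n := Nat.cast_nonneg n
  simp only [Function.comp_apply] at hn2
  rw [← Real.rpow_mul hn0, Real.norm_of_nonneg (Real.rpow_nonneg hn0 _),
    Real.norm_of_nonneg (Real.exp_pos _).le] at hn2
  have h5 : 2 * e * (24 / (2 * e)) = ((24 : ℕ) : ℝ) := by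
    field_simp
    norm_num
  rw [h5, Real.rpow_natCast] at hn2
  have h6 : (1 / 500 : ℝ) * (n : ℝ) ^ (2 * e) = (n : ℝ) ^ (2 * e) / 500 := by ring
  rw [h6] at hn2
  linarith

theorem thm : Pool.Agent.Helper6.GP.S_RATIO := by
  intro e he he2
  filter_upwards [nums e he] with n hn D m ρ hρ hno hm g hg
  obtain ⟨hn1, hx1, hnum⟩ := hn
  set x : ℝ := (n : ℝ) ^ (1 / 2 + e) with hx
  have hnpos : (0 : ℝ) < n := by exact_mod_cast hn1
  have hx0 : 0 < x := by linarith
  have hxx : x * x = (n : ℝ) * (n : ℝ) ^ (2 * e) := by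
    rw [hx, ← Real.rpow_add hnpos]
    have h1 : (1 / 2 + e + (1 / 2 + e) : ℝ) = 1 + 2 * e := by ring
    rw [h1, Real.rpow_add hnpos, Real.rpow_one]
  obtain ⟨T, hT, hTc⟩ := exists_T g
  have hfs := fixc_add_support g
  have hT3 : x ≤ 3 * (T.card : ℝ) := by
    have h1 : g.support.card ≤ 3 * T.card := by omega
    have h2 : (g.support.card : ℝ) ≤ 3 * T.card := by exact_mod_cast h1
    linarith
  have hT29 : 29 ≤ T.card := by
    have h1 : (29 : ℝ) ≤ T.card := by linarith
    exact_mod_cast h1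
  have hTn : T.card ≤ n := by simpa using Finset.card_le_univ T
  set lam : ℕ := ⌊x / 100⌋₊ with hlam
  have hlam1 : (lam : ℝ) ≤ x / 100 := Nat.floor_le (by positivity)
  have hlam2 : x / 100 < lam + 1 := Nat.lt_floor_add_one _
  have hlampos : 1 ≤ lam := by
    have h1 : (1 : ℝ) < (lam : ℝ) + 1 := by linarith
    have h2 : (0 : ℝ) < lam := by linarith
    exact_mod_cast h2
  have hrm : lam - 1 ≤ m := by
    have h1 : (lam : ℝ) ≤ m := by linarith
    have h2 : lam ≤ m := by exact_mod_cast h1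
    omega
  have hno' : ¬ HasFix ρ (stab n (lam - 1)) := fun h => hno (HasFix.mono hrm h)
  have hnoV : ∀ v : EuclideanSpace ℂ (Fin D), (∀ σ : Perm (Fin n), Perm.sign σ = 1 →
      (∀ j : Fin n, j.val < lam - 1 → σ j = j) → toV ρ σ v = v) → v = 0 := fun v hv => by
    by_contra hne
    apply hno'
    refine ⟨v.ofLp, fun h0 => hne ?_, fun h => ?_⟩
    · ext i
      rw [h0]; rfl
    · have h1 := hv h.1 (mem_stab.1 h.2).1 (mem_stab.1 h.2).2
      rw [toV_apply] at h1
      exact congrArg WithLp.ofLp h1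
  have hmain := char_bound_gen (toV ρ) (toV_inner ρ hρ) g T hT hT29
    (2 * Real.exp (1 - (n : ℝ) ^ (2 * e) / 500)) (by positivity) ?_ ?_
  · rw [toV_trace, finrank_euclideanSpace_fin] at hmain
    exact hmain
  · intro C hCT hCc
    have hCr : (C.card : ℝ) + 24 = T.card := by exact_mod_cast hCc
    have hC4 : x / 4 ≤ C.card := by linarith
    have hCn : (C.card : ℝ) ≤ n := by
      have h1 := Finset.card_le_card hCT
      exact_mod_cast h1.trans hTn
    have hC2 : 2 * lam + 1 < C.card := by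
      have h1 : (2 * lam + 1 : ℝ) < C.card := by linarith
      exact_mod_cast h1
    have h1 := finrank_altfix_gen (toV ρ) (toV_inner ρ hρ) (lam - 1) lam hnoV (by omega) C hC2
    refine h1.trans ?_
    have hD0 : (0 : ℝ) ≤ finrank ℂ (EuclideanSpace ℂ (Fin D)) := Nat.cast_nonneg _
    refine mul_le_mul_of_nonneg_right ?_ hD0
    refine mul_le_mul_of_nonneg_left ?_ (by norm_num)
    rw [show lam - 1 + 1 = lam by omega]
    have hden : (0 : ℝ) < (n : ℝ) - 2 * lam - 1 := by linarith
    have hfrac : x / (5 * n) ≤ ((C.card : ℝ) - 2 * lam - 1) / ((n : ℝ) - 2 * lam - 1) := by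
      rw [div_le_div_iff₀ (by positivity) hden]
      have h2 : x / 5 ≤ (C.card : ℝ) - 2 * lam - 1 := by linarith
      have h3 : (n : ℝ) - 2 * lam - 1 ≤ n := by
        have : (0 : ℝ) ≤ lam := Nat.cast_nonneg _
        linarith
      calc x * ((n : ℝ) - 2 * lam - 1) ≤ x * n := mul_le_mul_of_nonneg_left h3 hx0.le
        _ = (x / 5) * (5 * n) := by ring
        _ ≤ ((C.card : ℝ) - 2 * lam - 1) * (5 * n) :=
          mul_le_mul_of_nonneg_right h2 (by positivity)
    have hbase0 : 0 ≤ 1 - ((C.card : ℝ) - 2 * lam - 1) / ((n : ℝ) - 2 * lam - 1) := by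
      rw [sub_nonneg, div_le_one hden]
      linarith
    have hbase1 : 1 - ((C.card : ℝ) - 2 * lam - 1) / ((n : ℝ) - 2 * lam - 1) ≤
        Real.exp (-(x / (5 * n))) := by
      have h2 := Real.add_one_le_exp (-(x / (5 * n)))
      linarith
    calc (1 - ((C.card : ℝ) - 2 * lam - 1) / ((n : ℝ) - 2 * lam - 1)) ^ lam
        ≤ Real.exp (-(x / (5 * n))) ^ lam := pow_le_pow_left₀ hbase0 hbase1 lam
      _ = Real.exp (lam * (-(x / (5 * n)))) := by rw [← Real.exp_nat_mul]
      _ ≤ Real.exp (1 - (n : ℝ) ^ (2 * e) / 500) := by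
        apply Real.exp_le_exp.2
        have hxn : x ≤ n := by linarith [hCn, hC4, hT3, hg, (by
          have := Finset.card_le_univ g.support
          rw [Fintype.card_fin] at this
          exact_mod_cast this : (g.support.card : ℝ) ≤ n)]
        have h5 : (n : ℝ) ^ (2 * e) / 500 = x * x / (500 * n) := by
          rw [hxx]
          field_simp
        have h6 : (lam : ℝ) * (-(x / (5 * n))) ≤ (x / 100 - 1) * (-(x / (5 * n))) := by
          have h7 : x / 100 - 1 ≤ lam := by linarith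
          have h8 : 0 ≤ x / (5 * n) := by positivity
          nlinarith
        have h9 : (x / 100 - 1) * (-(x / (5 * n))) = x / (5 * n) - x * x / (500 * n) := by
          field_simp
          ring
        have h10 : x / (5 * n) ≤ 1 := by
          rw [div_le_one (by positivity)]
          linarith
        rw [h5]
        linarith
  · have h1 : Real.exp (1 - (n : ℝ) ^ (2 * e) / 500) =
        Real.exp 1 * (Real.exp ((n : ℝ) ^ (2 * e) / 500))⁻¹ := by
      rw [Real.exp_sub, div_eq_mul_inv]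
    have h2 : Real.exp 1 ≤ 3 := by
      have := Real.exp_one_lt_d9
      linarith
    have h3 : (0 : ℝ) < Real.exp ((n : ℝ) ^ (2 * e) / 500) := Real.exp_pos _
    rw [h1]
    have h4 : (n : ℝ) ^ 24 * (2 * (Real.exp 1 * (Real.exp ((n : ℝ) ^ (2 * e) / 500))⁻¹)) =
        (2 * Real.exp 1 * (n : ℝ) ^ 24) / Real.exp ((n : ℝ) ^ (2 * e) / 500) := by
      field_simp
    rw [h4, div_le_iff₀ h3]
    have h5 : 0 ≤ (n : ℝ) ^ 24 := by positivity
    nlinarith

end Pool.Agent.Helper38.GP
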